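import Pool.Agent.helper52.IR.Spec

/-! Row ir:BK2 (MP_07c750). -/

set_option autoImplicit false

open scoped MatrixGroups ContDiff Topology UpperHalfPlane ComplexConjugate
open UpperHalfPlane MeasureTheory Filter Set

namespace Pool.Agent.IR

open Pool.Agent.RS
open Pool.Agent.MS (bq BB BA SF pf)
open Pool.Agent.HV (FW)
open Pool.Agent.EN (XG MG mkX mkM fl pr)
open Pool.Agent.ER (Low LowJ)

/-- smooth functions with values in `[0, 1]` and bounded derivatives -/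
def BK2_G (Γ : Subgroup SL(2, ℝ)) (Ψ : SL(2, ℝ) → ℝ) : Prop :=
  ∃ (Ψa Ψn Ψl : SL(2, ℝ) → ℝ) (B : ℝ), SF Γ Ψ Ψa Ψn Ψl ∧ (∀ g, 0 ≤ Ψ g ∧ Ψ g ≤ 1) ∧
    (∀ g, |Ψn g| ≤ B) ∧ (∀ g, |Ψl g| ≤ B)

lemma BK2_mulb {a b a' b' A B : ℝ} (h1 : 0 ≤ a) (h1' : a ≤ 1) (h2 : 0 ≤ b) (h2' : b ≤ 1)
    (h3 : |a'| ≤ A) (h4 : |b'| ≤ B) : |a' * b + a * b'| ≤ A + B := by
  have e1 : |a' * b| ≤ A := by
    rw [abs_mul, abs_of_nonneg h2]
    calc |a'| * b ≤ |a'| * 1 := by gcongr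
      _ ≤ A := by linarith
  have e2 : |a * b'| ≤ B := by
    rw [abs_mul, abs_of_nonneg h1]
    calc a * |b'| ≤ 1 * |b'| := by gcongr
      _ ≤ B := by linarith
  calc |a' * b + a * b'| ≤ |a' * b| + |a * b'| := abs_add_le _ _
    _ ≤ A + B := add_le_add e1 e2

lemma BK2_mul (hSFP : SFP_stmt) {Γ : Subgroup SL(2, ℝ)} {Ψ Φ : SL(2, ℝ) → ℝ} (h1 : BK2_G Γ Ψ)
    (h2 : BK2_G Γ Φ) : BK2_G Γ (fun g => Ψ g * Φ g) := by
  obtain ⟨Ψa, Ψn, Ψl, B, s1, p1, n1, l1⟩ := h1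
  obtain ⟨Φa, Φn, Φl, B', s2, p2, n2, l2⟩ := h2
  have hs := (hSFP Γ Ψ Ψa Ψn Ψl s1).1 Φ Φa Φn Φl s2
  refine ⟨fun g => Ψa g * Φ g + Ψ g * Φa g, fun g => Ψn g * Φ g + Ψ g * Φn g,
    fun g => Ψl g * Φ g + Ψ g * Φl g, B + B', hs, ?_, ?_, ?_⟩ <;> intro g
  · refine ⟨mul_nonneg (p1 g).1 (p2 g).1, ?_⟩
    calc Ψ g * Φ g ≤ 1 * 1 := mul_le_mul (p1 g).2 (p2 g).2 (p2 g).1 zero_le_one
      _ = 1 := by norm_num
  · exact BK2_mulb (p1 g).1 (p1 g).2 (p2 g).1 (p2 g).2 (n1 g) (n2 g)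
  · exact BK2_mulb (p1 g).1 (p1 g).2 (p2 g).1 (p2 g).2 (l1 g) (l2 g)

lemma BK2_sub (hSFP : SFP_stmt) {Γ : Subgroup SL(2, ℝ)} {Ψ : SL(2, ℝ) → ℝ} (h1 : BK2_G Γ Ψ) :
    BK2_G Γ (fun g => 1 - Ψ g) := by
  obtain ⟨Ψa, Ψn, Ψl, B, s1, p1, n1, l1⟩ := h1
  have hs := (hSFP Γ Ψ Ψa Ψn Ψl s1).2.1
  refine ⟨fun g => -Ψa g, fun g => -Ψn g, fun g => -Ψl g, B, hs, ?_, ?_, ?_⟩ <;> intro g
  · have := p1 g
    constructor <;> linarith [this.1, this.2]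
  · show |-Ψn g| ≤ B
    rw [abs_neg]; exact n1 g
  · show |-Ψl g| ≤ B
    rw [abs_neg]; exact l1 g

lemma BK2_sh (hSFP : SFP_stmt) {Γ : Subgroup SL(2, ℝ)} {Ψ : SL(2, ℝ) → ℝ} (h1 : BK2_G Γ Ψ) (s : ℝ) :
    BK2_G Γ (fun g => Ψ (g * aM s)) := by
  obtain ⟨Ψa, Ψn, Ψl, B, s1, p1, n1, l1⟩ := h1
  have hB : 0 ≤ B := le_trans (abs_nonneg _) (n1 1)
  have e1 : 0 < Real.exp (-s) := Real.exp_pos _
  have e2 : 0 < Real.exp s := Real.exp_pos _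
  have hs := (hSFP Γ Ψ Ψa Ψn Ψl s1).2.2 s
  refine ⟨fun g => Ψa (g * aM s), fun g => Real.exp (-s) * Ψn (g * aM s),
    fun g => Real.exp s * Ψl (g * aM s), Real.exp (-s) * B + Real.exp s * B, hs,
    fun g => p1 _, ?_, ?_⟩ <;> intro g
  · have h := n1 (g * aM s)
    show |Real.exp (-s) * Ψn (g * aM s)| ≤ _
    rw [abs_mul, abs_of_pos e1]
    calc Real.exp (-s) * |Ψn (g * aM s)| ≤ Real.exp (-s) * B := by gcongr
      _ ≤ _ := by linarith [mul_nonneg e2.le hB]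
  · have h := l1 (g * aM s)
    show |Real.exp s * Ψl (g * aM s)| ≤ _
    rw [abs_mul, abs_of_pos e2]
    calc Real.exp s * |Ψl (g * aM s)| ≤ Real.exp s * B := by gcongr
      _ ≤ _ := by linarith [mul_nonneg e1.le hB]

lemma BK2_EB {nt nt' np np' ns ns' y0 y1 y2 p s1 θ0 R : ℝ} (a1 : 0 ≤ nt) (a2 : nt ≤ nt')
    (b1 : 0 ≤ np) (b2 : np ≤ np') (c1 : 0 ≤ ns) (c2 : ns ≤ ns') (d0 : 0 ≤ y0) (d1 : 0 ≤ y1)
    (d2 : 0 ≤ y2) (t0 : 0 < θ0) (r0 : 0 < R) :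
    EB nt np ns y0 y1 y2 p s1 θ0 R ≤ EB nt' np' ns' y0 y1 y2 p s1 θ0 R := by
  have a3 : 0 ≤ nt' := le_trans a1 a2
  have b3 : 0 ≤ np' := le_trans b1 b2
  have c3 : 0 ≤ ns' := le_trans c1 c2
  unfold EB
  gcongr

lemma BK2_aM (s t : ℝ) : aM (s + t) = aM s * aM t := by
  ext i j
  fin_cases i <;> fin_cases j <;>
    simp [aM, Matrix.mul_apply, Fin.sum_univ_two, ← Real.exp_add] <;> ring_nf

lemma BK2_fl0 {X : Type} [TopologicalSpace X] [MeasurableSpace X] [BorelSpace X] (f : ℝ → X → X)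
    (hF : EN.FlowOn f) (μ : Measure X) (hinv : ∀ t, μ.map (f t) = μ) (t : ℝ) (E : Set X) :
    μ.real (f t ⁻¹' E) = μ.real E := by
  have hc : ∀ t, Continuous (f t) := fun t =>
    hF.cont.comp (Continuous.prodMk continuous_const continuous_id)
  have hl : ∀ t, Function.LeftInverse (f (-t)) (f t) := by
    intro t x
    rw [← hF.add, neg_add_cancel, hF.zero]
  have hr : Function.RightInverse (f (-t)) (f t) := by
    intro x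
    have := hl (-t) x
    rwa [neg_neg] at this
  let e : X ≃ᵐ X :=
    { toFun := f t
      invFun := f (-t)
      left_inv := hl t
      right_inv := hr
      measurable_toFun := (hc t).measurable
      measurable_invFun := (hc (-t)).measurable }
  have h1 : μ.map e = μ := hinv t
  have h2 := e.map_apply (μ := μ) E
  rw [h1] at h2
  rw [Measure.real, Measure.real, h2]
  rfl

lemma BK2_fl (hXFL : EN.XFL_stmt) (Γ : Subgroup SL(2, ℝ)) (μ : Measure (XG Γ))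
    (hinv : ∀ t, μ.map (fl Γ t) = μ) (t : ℝ) (E : Set (XG Γ)) :
    μ.real (fl Γ t ⁻¹' E) = μ.real E :=
  BK2_fl0 (fl Γ) (hXFL Γ).1 μ hinv t E

lemma BK2_box (hXFL : EN.XFL_stmt) (Γ : Subgroup SL(2, ℝ)) (A : Finset SL(2, ℝ)) (a n : ℝ)
    (g : SL(2, ℝ)) (h : mkX Γ g ∈ BX Γ A a n) :
    ∃ y ∈ A, ∃ γ : Γ, bq a a (a * Real.exp (-n)) (y⁻¹ * (γ : SL(2, ℝ)) * g) := by
  obtain ⟨y, hy, k, hk, e⟩ := h
  obtain ⟨γ, hγ⟩ := ((hXFL Γ).2.2.2.2.2.2.2.2.2.2.1 g (y * k)).1 e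
  refine ⟨y, hy, γ, ?_⟩
  rw [mul_assoc, hγ, inv_mul_cancel_left]
  exact hk

lemma BK2_box' (hXFL : EN.XFL_stmt) (Γ : Subgroup SL(2, ℝ)) (A : Finset SL(2, ℝ)) (a n : ℝ)
    (g : SL(2, ℝ)) (h : ∃ y ∈ A, ∃ γ : Γ, bq a a (a * Real.exp (-n)) (y⁻¹ * (γ : SL(2, ℝ)) * g)) :
    mkX Γ g ∈ BX Γ A a n := by
  obtain ⟨y, hy, γ, hγ⟩ := h
  refine ⟨y, hy, _, hγ, ?_⟩
  rw [(hXFL Γ).2.2.2.2.2.2.2.2.2.2.1]
  refine ⟨γ, ?_⟩
  rw [mul_assoc, mul_inv_cancel_left]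

lemma BK2_JC {W W' : Set SL(2, ℝ)} (h : W ⊆ W') {εc l l0 : ℝ} {g : SL(2, ℝ)} {j : ℤ}
    (hj : JC W εc l l0 g j) : JC W' εc l l0 g j := by
  obtain ⟨h1, u, hu, x, τ, o, e, he, hx, hτ, ho, hW⟩ := hj
  exact ⟨h1, u, hu, x, τ, o, e, he, hx, hτ, ho, h hW⟩

/-- the constants -/
lemma BK2_q {C a1 : ℝ} (hC : 1 ≤ C) (ha : 1 / 2 < a1) : ∃ q1 : ℕ, ∀ q : ℕ, q1 ≤ q →
    C * Real.exp q ≤ Real.exp (a1 * (2 * q)) := by
  have h0 : 0 < 2 * a1 - 1 := by linarith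
  obtain ⟨q1, h1⟩ := exists_nat_ge (Real.log C / (2 * a1 - 1))
  refine ⟨q1, fun q hq => ?_⟩
  have h2 : Real.log C / (2 * a1 - 1) ≤ q := le_trans h1 (by exact_mod_cast hq)
  rw [div_le_iff₀ h0] at h2
  have h3 : C = Real.exp (Real.log C) := (Real.exp_log (by linarith)).symm
  rw [h3, ← Real.exp_add]
  apply Real.exp_le_exp.2
  linarith

theorem BK2_proof (hBXM : MS.BXM_stmt) (hSFP : SFP_stmt) (hCOV : COV_stmt) (hFLI : FLI_stmt)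
    (hLOB : LOB_stmt) (hLFX : LFX_stmt) (hXFL : EN.XFL_stmt) : BK2_stmt := by
  intro Γ μ h a1 hΓ hμ hinv ha1 ha1h hh Λ2 η δ hΛ hη hδ
  obtain ⟨a0, ha0, -, hB⟩ := hBXM Γ hΓ
  obtain ⟨b1, hb1, hL⟩ := hLOB Γ μ a1 hΓ hμ hinv (by linarith) (δ / 4) (by linarith)
  obtain ⟨a, ha, haa, hab, hac⟩ : ∃ a : ℝ, 0 < a ∧ a ≤ a0 ∧ 16 * a ≤ b1 ∧ a ≤ 1 / 1600 := by
    refine ⟨min a0 (min (b1 / 16) (1 / 1600)), ?_, ?_, ?_, ?_⟩
    · refine lt_min ha0 (lt_min (by linarith) (by norm_num))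
    · exact min_le_left _ _
    · have : min a0 (min (b1 / 16) (1 / 1600)) ≤ b1 / 16 :=
        le_trans (min_le_right _ _) (min_le_left _ _)
      linarith
    · exact le_trans (min_le_right _ _) (min_le_right _ _)
  obtain ⟨CB, hCB, hBX⟩ := hB a ha haa
  obtain ⟨q1, hq1⟩ := hL (16 * a) (by linarith) hab
  obtain ⟨CL, p0, hCL, hLX⟩ := hLFX Γ hΓ a Λ2 ha hac hΛ
  obtain ⟨n0, hn0⟩ := hCOV Γ μ h hΓ hμ hinv (by linarith) a η (δ / 4) ha hη (by linarith)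
  obtain ⟨q2, hq2⟩ := BK2_q hCL ha1
  refine ⟨CL, max (max q1 q2) (max p0 n0), hCL, ?_⟩
  intro q s1 εc θ0 hq hs1 hθ hθ1 hεc
  have hqa : q1 ≤ q := le_trans (le_trans (le_max_left _ _) (le_max_left _ _)) hq
  have hqb : q2 ≤ q := le_trans (le_trans (le_max_right _ _) (le_max_left _ _)) hq
  have hqc : p0 ≤ q := le_trans (le_trans (le_max_left _ _) (le_max_right _ _)) hq
  have hqd : n0 ≤ q := le_trans (le_trans (le_max_right _ _) (le_max_right _ _)) hq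
  obtain ⟨Ap, hAp, mAp⟩ := hn0 (2 * q) (by omega)
  obtain ⟨At, hAt, mAt⟩ := hn0 (2 * (2 * q)) (by omega)
  obtain ⟨As, hAs, mAs⟩ := hn0 (2 * (2 * q) - s1) (by omega)
  have ecp : ((2 * q : ℕ) : ℝ) = 2 * (q : ℝ) := by push_cast; ring
  have ect : ((2 * (2 * q) : ℕ) : ℝ) = 2 * (2 * (q : ℝ)) := by push_cast; ring
  have ecs : ((2 * (2 * q) - s1 : ℕ) : ℝ) = 2 * (2 * (q : ℝ)) - s1 := by
    rw [Nat.cast_sub (by omega), ect]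
  rw [ecp] at hAp mAp
  rw [ect] at hAt mAt
  rw [ecs] at hAs mAs
  have hs1' : (s1 : ℝ) ≤ 2 * (q : ℝ) := by rw [← ecp]; exact_mod_cast hs1
  have hq0 : (0 : ℝ) ≤ q := Nat.cast_nonneg q
  have hR : (1 : ℝ) ≤ Real.exp q := Real.one_le_exp hq0
  obtain ⟨Ab, hAb, hint⟩ := hLX (2 * q) s1 εc θ0 (Real.exp q) Ap At As (by omega)
    (by rw [hεc, ecp]) (by omega) hθ hθ1 hR
  obtain ⟨Ψp, Ψpa, Ψpn, Ψpl, Sp, Ip, Np, Lp, Bp, Zp⟩ := hBX (2 * q) Ap (by positivity)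
  obtain ⟨Ψt, Ψta, Ψtn, Ψtl, St, It, Nt, Lt, Bt, Zt⟩ := hBX (2 * (2 * q)) At (by positivity)
  obtain ⟨Ψs, Ψsa, Ψsn, Ψsl, Ss, Is, Ns, Ls, Bs, Zs⟩ := hBX (2 * (2 * q) - s1) As (by linarith)
  obtain ⟨Ψb, Ψba, Ψbn, Ψbl, Sb, Ib, Nb, Lb, Bb, Zb⟩ := hBX (2 * q) Ab (by positivity)
  have G : ∀ {Ψ Ψa Ψn Ψl : SL(2, ℝ) → ℝ} {n : ℝ}, SF Γ Ψ Ψa Ψn Ψl → (∀ g, 0 ≤ Ψ g ∧ Ψ g ≤ 1) →
      (∀ g, |Ψn g| ≤ CB) → (∀ g, |Ψl g| ≤ CB * Real.exp n) → BK2_G Γ Ψ := by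
    intro Ψ Ψa Ψn Ψl n h1 h2 h3 h4
    refine ⟨Ψa, Ψn, Ψl, max CB (CB * Real.exp n), h1, h2, fun g => ?_, fun g => ?_⟩
    · exact le_trans (h3 g) (le_max_left _ _)
    · exact le_trans (h4 g) (le_max_right _ _)
  have Gp := G Sp Ip Np Lp
  have Gt := BK2_sh hSFP (G St It Nt Lt) (2 * q)
  have Gs := BK2_sh hSFP (G Ss Is Ns Ls) (2 * q)
  have Gb := BK2_sub hSFP (BK2_sh hSFP (G Sb Ib Nb Lb) (3 * (2 * q)))
  have GG := BK2_mul hSFP (BK2_mul hSFP (BK2_mul hSFP Gp Gt) Gs) Gb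
  obtain ⟨Ψa, Ψn, Ψl, B, S0, I0, N0, L0⟩ := GG
  refine ⟨_, Ψa, Ψn, Ψl, B, S0, I0, N0, L0, ?_, ?_⟩
  · have flm : ∀ (t : ℝ) (g : SL(2, ℝ)), fl Γ t (mkX Γ g) = mkX Γ (g * aM t) :=
      (hXFL Γ).2.2.2.2.2.2.2.2.1
    have hsub : (Low Γ μ h \ Low Γ μ a1) \
        one Γ (fun g => Ψp g * Ψt (g * aM (2 * q)) * Ψs (g * aM (2 * q)) *
          (1 - Ψb (g * aM (3 * (2 * q))))) ⊆
        ((Low Γ μ h \ BX Γ Ap a (2 * q)) ∪
          (fl Γ (2 * q) ⁻¹' (Low Γ μ h \ BX Γ At a (2 * (2 * q))))) ∪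
        ((fl Γ (2 * q) ⁻¹' (Low Γ μ h \ BX Γ As a (2 * (2 * q) - s1))) ∪
          (fl Γ (3 * (2 * q)) ⁻¹' (BX Γ Ab (16 * a) (2 * q) \ Low Γ μ a1))) := by
      intro x hx
      obtain ⟨⟨hx1, hx2⟩, hx3⟩ := hx
      obtain ⟨g, rfl⟩ := (hXFL Γ).2.2.2.2.1 x
      by_contra hcon
      have c1 : mkX Γ g ∈ BX Γ Ap a (2 * q) := by
        by_contra h5
        exact hcon (Or.inl (Or.inl ⟨hx1, h5⟩))
      have l1 : fl Γ (2 * q) (mkX Γ g) ∈ Low Γ μ h := hFLI Γ μ h (2 * q) _ hΓ hμ hinv hx1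
      have c2 : fl Γ (2 * q) (mkX Γ g) ∈ BX Γ At a (2 * (2 * q)) := by
        by_contra h5
        exact hcon (Or.inl (Or.inr ⟨l1, h5⟩))
      have c3 : fl Γ (2 * q) (mkX Γ g) ∈ BX Γ As a (2 * (2 * q) - s1) := by
        by_contra h5
        exact hcon (Or.inr (Or.inl ⟨l1, h5⟩))
      have l2 : fl Γ (3 * (2 * q)) (mkX Γ g) ∉ Low Γ μ a1 := by
        intro h5
        have h6 := hFLI Γ μ a1 (-(3 * (2 * q))) _ hΓ hμ hinv h5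
        rw [← (hXFL Γ).1.add, neg_add_cancel, (hXFL Γ).1.zero] at h6
        exact hx2 h6
      have c4 : fl Γ (3 * (2 * q)) (mkX Γ g) ∉ BX Γ Ab (16 * a) (2 * q) := by
        intro h5
        exact hcon (Or.inr (Or.inr ⟨h5, l2⟩))
      rw [flm] at c2 c3 c4
      have d1 : Ψp g = 1 := Bp g (BK2_box hXFL Γ Ap a _ g c1)
      have d2 : Ψt (g * aM (2 * q)) = 1 := Bt _ (BK2_box hXFL Γ At a _ _ c2)
      have d3 : Ψs (g * aM (2 * q)) = 1 := Bs _ (BK2_box hXFL Γ As a _ _ c3)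
      have d4 : Ψb (g * aM (3 * (2 * q))) = 0 := by
        by_contra h5
        exact c4 (BK2_box' hXFL Γ Ab (16 * a) _ _ (Zb _ h5))
      apply hx3
      refine ⟨g, rfl, ?_⟩
      show Ψp g * Ψt (g * aM (2 * q)) * Ψs (g * aM (2 * q)) * (1 - Ψb (g * aM (3 * (2 * q)))) = 1
      rw [d1, d2, d3, d4]
      norm_num
    have m4 := hq1 q hqa Ab (le_trans hAb (hq2 q hqb))
    calc μ.real _ ≤ μ.real _ := measureReal_mono hsub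
      _ ≤ μ.real (_ ∪ _) + μ.real (_ ∪ _) := measureReal_union_le _ _
      _ ≤ (μ.real _ + μ.real _) + (μ.real _ + μ.real _) :=
        add_le_add (measureReal_union_le _ _) (measureReal_union_le _ _)
      _ ≤ (δ / 4 + δ / 4) + (δ / 4 + δ / 4) := by
        rw [BK2_fl hXFL Γ μ hinv, BK2_fl hXFL Γ μ hinv, BK2_fl hXFL Γ μ hinv]
        exact add_le_add (add_le_add mAp mAt) (add_le_add mAs m4)
      _ = δ := by ring
  · intro l l0 g J c Y y0 y1 y2 hl hll hl0 hJ hY hY1 hv0 hv1 hv2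
    have hW : {k : SL(2, ℝ) | (fun g => Ψp g * Ψt (g * aM (2 * q)) * Ψs (g * aM (2 * q)) *
          (1 - Ψb (g * aM (3 * (2 * q))))) (k * aM (-(3 * (2 * q)))) ≠ 0} ⊆
        WS Γ Ap At As (16 * a) (2 * q) s1 \ FW Γ Ab a (Real.exp (-((2 * q : ℕ) : ℝ))) := by
      intro k hk
      have hk' : Ψp (k * aM (-(3 * (2 * q)))) * Ψt (k * aM (-(3 * (2 * q))) * aM (2 * q)) *
        Ψs (k * aM (-(3 * (2 * q))) * aM (2 * q)) *
          (1 - Ψb (k * aM (-(3 * (2 * q))) * aM (3 * (2 * q)))) ≠ 0 := hk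
      rw [mul_assoc k, mul_assoc k, ← BK2_aM, ← BK2_aM] at hk'
      rw [show -(3 * (2 * (q : ℝ))) + 2 * q = -(2 * (2 * q)) by ring,
        show -(3 * (2 * (q : ℝ))) + 3 * (2 * q) = 0 by ring] at hk'
      have e0 : aM 0 = 1 := by
        have := BK2_aM 0 0
        rw [add_zero] at this
        exact (mul_eq_left.1 this.symm)
      rw [e0, mul_one] at hk'
      have f4 := right_ne_zero_of_mul hk'
      have f3 := right_ne_zero_of_mul (left_ne_zero_of_mul hk')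
      have f2 := right_ne_zero_of_mul (left_ne_zero_of_mul (left_ne_zero_of_mul hk'))
      have f1 := left_ne_zero_of_mul (left_ne_zero_of_mul (left_ne_zero_of_mul hk'))
      refine ⟨⟨?_, ?_, ?_⟩, ?_⟩
      · rw [ecp]
        exact Zp _ f1
      · rw [ecp]
        exact Zt _ f2
      · rw [ecp]
        exact Zs _ f3
      · intro h5
        rw [ecp] at h5
        apply f4
        rw [Bb k h5, sub_self]
    have hy0 : 0 ≤ y0 := le_trans measureReal_nonneg hv0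
    have hy1 : 0 ≤ y1 := le_trans measureReal_nonneg (hv1 0)
    have hy2 : 0 ≤ y2 := le_trans measureReal_nonneg (hv2 0)
    have key := hint l l0 g J c Y y0 y1 y2 hl hll hl0 (fun j hj => BK2_JC hW (hJ j hj)) hY hY1
      hv0 hv1 (by rw [ecp]; exact hv2)
    refine le_trans key ?_
    have hmono := BK2_EB (nt := (At.card : ℝ)) (nt' := Real.exp ((h + η) * (2 * (2 * q))))
      (np := (Ap.card : ℝ)) (np' := Real.exp ((h + η) * (2 * q)))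
      (ns := (As.card : ℝ)) (ns' := Real.exp ((h + η) * (2 * (2 * q) - s1)))
      (y0 := y0) (y1 := y1) (y2 := y2) (p := ((2 * q : ℕ) : ℝ)) (s1 := (s1 : ℝ)) (θ0 := θ0)
      (R := Real.exp q) (Nat.cast_nonneg _) hAt (Nat.cast_nonneg _) hAp (Nat.cast_nonneg _) hAs
      hy0 hy1 hy2 hθ (Real.exp_pos _)
    rw [ecp] at hmono
    rw [ecp]
    have hc0 : 0 ≤ ∑ j ∈ J, ‖c j‖ ^ 2 := Finset.sum_nonneg fun j _ => by positivity
    have hC0 : 0 ≤ CL := by linarith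
    exact mul_le_mul_of_nonneg_right
      (mul_le_mul_of_nonneg_left (Real.sqrt_le_sqrt hmono) hC0) hc0

end Pool.Agent.IR
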